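import Mathlib

set_option autoImplicit false

open scoped ContDiff Topology
open Set Filter

noncomputable section

namespace Pool.Agent.Helper802.OD

/-! ### Smooth limits -/

theorem exists_smooth_limit {E : Type} [NormedAddCommGroup E] [NormedSpace ℝ E]
    (g : ℕ → E → ℝ) (hg : ∀ n, ContDiff ℝ ∞ (g n))
    (h : ∀ n k, k ≤ n → ∀ y, ‖iteratedFDeriv ℝ k (fun y => g (n + 1) y - g n y) y‖ ≤ (1 / 2) ^ n) :
    ∃ G : E → ℝ, ContDiff ℝ ∞ G ∧ ∀ y, Tendsto (fun n => g n y) atTop (𝓝 (G y)) := by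
  have hgeo : Summable fun n : ℕ => ((1 : ℝ) / 2) ^ n := summable_geometric_two
  have hs : ∀ y, Summable fun n => g (n + 1) y - g n y := by
    intro y
    refine Summable.of_norm_bounded hgeo fun n => ?_
    have := h n 0 (Nat.zero_le _) y
    rwa [norm_iteratedFDeriv_zero] at this
  refine ⟨fun y => g 0 y + ∑' n, (g (n + 1) y - g n y), ?_, ?_⟩
  · have : ContDiff ℝ ((⊤ : ℕ∞) : ℕ∞ω) fun y => ∑' n, (fun y => g (n + 1) y - g n y) y := by
      refine contDiff_tsum_of_eventually (v := fun _ n => (1 / 2 : ℝ) ^ n) ?_ ?_ ?_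
      · intro n
        exact (hg _).sub (hg _)
      · intro k _; exact hgeo
      · intro k _
        rw [Nat.cofinite_eq_atTop]
        filter_upwards [eventually_ge_atTop k] with n hn y
        exact h n k hn y
    exact (hg 0).add this
  · intro y
    have h1 := (hs y).hasSum.tendsto_sum_nat
    have h2 : ∀ n, ∑ i ∈ Finset.range n, (g (i + 1) y - g i y) = g n y - g 0 y := fun n =>
      Finset.sum_range_sub (fun i => g i y) n
    simp only [h2] at h1
    have := h1.const_add (g 0 y)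
    refine this.congr fun n => by ring

/-! ### Small perturbations -/

theorem continuous_norm_iteratedFDeriv (k : ℕ) : ∀ {E F : Type} [NormedAddCommGroup E]
    [NormedSpace ℝ E] [NormedAddCommGroup F] [NormedSpace ℝ F] (Φ : ℝ × E → F)
    (_ : ContDiff ℝ ∞ Φ),
    Continuous fun q : ℝ × E => ‖iteratedFDeriv ℝ k (fun y => Φ (q.1, y)) q.2‖ := by
  induction k with
  | zero =>
    intro E F _ _ _ _ Φ hΦ
    simp only [norm_iteratedFDeriv_zero]
    exact hΦ.continuous.norm
  | succ k ih =>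
    intro E F _ _ _ _ Φ hΦ
    have h1 : ContDiff ℝ ∞ (fun q : ℝ × E => fderiv ℝ (fun y => Φ (q.1, y)) q.2) := by
      refine ContDiff.fderiv (m := ∞) (n := ∞) (f := fun (q : ℝ × E) (y : E) => Φ (q.1, y)) ?_
        contDiff_snd (by exact le_rfl)
      exact hΦ.comp ((contDiff_fst.comp contDiff_fst).prodMk contDiff_snd)
    have h2 := ih (fun q : ℝ × E => fderiv ℝ (fun y => Φ (q.1, y)) q.2) h1
    refine h2.congr fun q => ?_
    rw [← norm_iteratedFDeriv_fderiv]

theorem small_of_periodic {E : Type} [NormedAddCommGroup E] [NormedSpace ℝ E] (Φ : ℝ × E → ℝ)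
    (hΦ : ContDiff ℝ ∞ Φ) (K : Set E) (hK : IsCompact K)
    (hper : ∀ y : E, ∃ v : E, y + v ∈ K ∧ ∀ t z, Φ (t, z + v) = Φ (t, z)) (t₀ : ℝ)
    (h0 : ∀ y, Φ (t₀, y) = 0) (n : ℕ) (ε : ℝ) (hε : 0 < ε) :
    ∀ᶠ t in 𝓝 t₀, ∀ k ≤ n, ∀ y, ‖iteratedFDeriv ℝ k (fun y => Φ (t, y)) y‖ ≤ ε := by
  have key : ∀ k, ∀ᶠ t in 𝓝 t₀, ∀ y, ‖iteratedFDeriv ℝ k (fun y => Φ (t, y)) y‖ ≤ ε := by
    intro k
    have hc := continuous_norm_iteratedFDeriv k Φ hΦ
    have h1 : ∀ᶠ t in 𝓝 t₀, ∀ y ∈ K, ‖iteratedFDeriv ℝ k (fun y => Φ (t, y)) y‖ < ε := by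
      apply hK.eventually_forall_of_forall_eventually
      intro y _
      have : ‖iteratedFDeriv ℝ k (fun y => Φ (t₀, y)) y‖ < ε := by
        have hz : (fun y => Φ (t₀, y)) = fun _ => (0 : ℝ) := funext h0
        rw [hz]
        rw [iteratedFDeriv_fun_zero]
        simpa using hε
      exact hc.continuousAt.eventually_lt (f := fun q : ℝ × E =>
        ‖iteratedFDeriv ℝ k (fun y => Φ (q.1, y)) q.2‖) (x₀ := (t₀, y)) continuousAt_const this
    filter_upwards [h1] with t ht y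
    obtain ⟨v, hv, hv'⟩ := hper y
    have h2 : iteratedFDeriv ℝ k (fun z => Φ (t, z)) y
        = iteratedFDeriv ℝ k (fun z => Φ (t, z)) (y + v) := by
      rw [← iteratedFDeriv_comp_add_right]
      congr 1
      funext z
      exact (hv' t z).symm
    rw [h2]
    exact (ht _ hv).le
  have := (Finset.range (n + 1)).eventually_all.2 fun k _ => key k
  filter_upwards [this] with t ht k hk
  exact ht k (Finset.mem_range.2 (Nat.lt_succ_of_le hk))

end Pool.Agent.Helper802.OD
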