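import Mathlib

set_option autoImplicit false
open MeasureTheory Set Filter Topology
open scoped ContDiff ENNReal

noncomputable section

namespace Pool.Agent.Helper802.OD

/-! ### Odometers -/

/-- The odometer group with scale `q` (where `q k ∣ q (k+1)`): the inverse limit of the groups
`ℤ / q k`, as a subgroup of the product (with the product topology and product `σ`-algebra). -/
def odometer (q : ℕ → ℕ) (hq : ∀ k, q k ∣ q (k + 1)) : AddSubgroup ((k : ℕ) → ZMod (q k)) where
  carrier := {x | ∀ k, ZMod.castHom (hq k) (ZMod (q k)) (x (k + 1)) = x k}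
  add_mem' := by
    intro a b ha hb k
    simp only [mem_setOf_eq] at ha hb
    rw [Pi.add_apply, map_add, ha k, hb k, Pi.add_apply]
  zero_mem' := by
    intro k
    simp
  neg_mem' := by
    intro a ha k
    simp only [mem_setOf_eq] at ha
    rw [Pi.neg_apply, map_neg, ha k, Pi.neg_apply]

/-- The element `1 = (1,1,1,…)` of the odometer. -/
def odoOne (q : ℕ → ℕ) (hq : ∀ k, q k ∣ q (k + 1)) : odometer q hq :=
  ⟨fun _ => 1, fun k => map_one _⟩

instance odometer_compact (q : ℕ → ℕ) (hq : ∀ k, q k ∣ q (k + 1)) [∀ k, NeZero (q k)] :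
    CompactSpace (odometer q hq) := by
  apply isCompact_iff_compactSpace.1
  apply IsClosed.isCompact
  have : ((odometer q hq : AddSubgroup ((k : ℕ) → ZMod (q k))) : Set ((k : ℕ) → ZMod (q k)))
      = ⋂ k, {x | ZMod.castHom (hq k) (ZMod (q k)) (x (k + 1)) = x k} := by
    ext x; simp [odometer]
  rw [this]
  exact isClosed_iInter fun k => isClosed_eq
    ((continuous_of_discreteTopology (f := ZMod.castHom (hq k) (ZMod (q k)))).comp
      (continuous_apply (k + 1))) (continuous_apply k)

/-- Normalised Haar measure of the odometer group. -/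
def odoMeasure (q : ℕ → ℕ) (hq : ∀ k, q k ∣ q (k + 1)) [∀ k, NeZero (q k)] :
    Measure (odometer q hq) :=
  Measure.addHaarMeasure (⊤ : TopologicalSpace.PositiveCompacts (odometer q hq))

/-- Isomorphism of measure preserving systems modulo null sets: measure preserving maps in both
directions, inverse to each other almost everywhere, intertwining the transformations almost
everywhere. -/
def MeasureIso {α β : Type} [MeasurableSpace α] [MeasurableSpace β] (μ : Measure α) (f : α → α)
    (ν : Measure β) (g : β → β) : Prop :=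
  ∃ (φ : α → β) (ψ : β → α), MeasurePreserving φ μ ν ∧ MeasurePreserving ψ ν μ ∧
    (∀ᵐ x ∂μ, ψ (φ x) = x) ∧ (∀ᵐ y ∂ν, φ (ψ y) = y) ∧ (∀ᵐ x ∂μ, φ (f x) = g (φ x))

/-- A self-map of the torus `ℝⁿ/ℤⁿ` is `C^∞` if it is covered by a `C^∞` map of `ℝⁿ`. -/
def SmoothTorusMap {n : ℕ} (f : (Fin n → UnitAddCircle) → (Fin n → UnitAddCircle)) : Prop :=
  ∃ F : (Fin n → ℝ) → (Fin n → ℝ), ContDiff ℝ ∞ F ∧
    ∀ x i, f (fun j => (x j : UnitAddCircle)) i = (F x i : UnitAddCircle)

end Pool.Agent.Helper802.OD
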