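import Mathlib
import Pool.Agent.Helper802.OD.Defs

set_option autoImplicit false
open MeasureTheory Set Filter Topology
open scoped ContDiff ENNReal

noncomputable section

namespace Pool.Agent.Helper802.OD

/-- The two smooth functions of one Anosov-Katok step. `q` old order, `c * q` new order. -/
structure SB (q c : ℕ) (δ : ℝ) where
  s : ℝ → ℝ
  b : ℝ → ℝ
  s_smooth : ContDiff ℝ ∞ s
  b_smooth : ContDiff ℝ ∞ b
  s_step : ∀ x, s (x + 1 / ((c : ℝ) * q)) = s x + 1 / (q : ℝ)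
  b_per : ∀ y, b (y + 1) = b y
  s_flat : ∀ x, Int.fract ((c : ℝ) * q * x) ≤ 1 - δ → s x = (⌊(c : ℝ) * q * x⌋ : ℝ) / q
  b_flat : ∀ y, Int.fract ((q : ℝ) * y) ≤ 1 - δ →
    b y = (((-⌊(q : ℝ) * y⌋) % (q : ℤ) : ℤ) : ℝ) / ((c : ℝ) * q)

/-- The step map on `ℝ²`. -/
def SB.E {q c : ℕ} {δ : ℝ} (S : SB q c δ) (p : ℝ × ℝ) : ℝ × ℝ :=
  (p.2 + S.s (p.1 + S.b p.2), p.1 + S.b p.2)

/-- Its inverse. -/
def SB.Ei {q c : ℕ} {δ : ℝ} (S : SB q c δ) (p : ℝ × ℝ) : ℝ × ℝ :=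
  (p.2 - S.b (p.1 - S.s p.2), p.1 - S.s p.2)

/-- Representative in `[0,1)`. -/
def fr (x : UnitAddCircle) : ℝ := (AddCircle.equivIco 1 0 x : ℝ)

/-- The digit map `x ↦ ⌊q x⌋ mod q`. -/
def digit (q : ℕ) (x : UnitAddCircle) : ZMod q := ((⌊(q : ℝ) * fr x⌋ : ℤ) : ZMod q)

/-- the covering map -/
def pi2 (p : ℝ × ℝ) : UnitAddCircle × UnitAddCircle := (p.1, p.2)

/-- integer vectors -/
def zz (z : ℤ × ℤ) : ℝ × ℝ := (z.1, z.2)

/-- A `C^∞` area preserving diffeomorphism of the torus together with lifts of it and of its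
inverse. -/
structure TD where
  F : ℝ × ℝ → ℝ × ℝ
  G : ℝ × ℝ → ℝ × ℝ
  FT : UnitAddCircle × UnitAddCircle → UnitAddCircle × UnitAddCircle
  GT : UnitAddCircle × UnitAddCircle → UnitAddCircle × UnitAddCircle
  hF : ContDiff ℝ ∞ F
  hG : ContDiff ℝ ∞ G
  FG : ∀ p, F (G p) = p
  GF : ∀ p, G (F p) = p
  FTc : Continuous FT
  GTc : Continuous GT
  piF : ∀ p, FT (pi2 p) = pi2 (F p)
  piG : ∀ p, GT (pi2 p) = pi2 (G p)
  int : ∀ z : ℤ × ℤ, ∃ z' : ℤ × ℤ, ∀ w, F (w + zz z') = F w + zz z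
  mpF : MeasurePreserving FT volume volume
  mpG : MeasurePreserving GT volume volume

/-- identity -/
def TD.one : TD where
  F := id
  G := id
  FT := id
  GT := id
  hF := contDiff_id
  hG := contDiff_id
  FG _ := rfl
  GF _ := rfl
  FTc := continuous_id
  GTc := continuous_id
  piF _ := rfl
  piG _ := rfl
  int z := ⟨z, fun _ => rfl⟩
  mpF := MeasurePreserving.id _
  mpG := MeasurePreserving.id _

/-- composition `K ∘ E` -/
def TD.comp (K E : TD) : TD where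
  F := K.F ∘ E.F
  G := E.G ∘ K.G
  FT := K.FT ∘ E.FT
  GT := E.GT ∘ K.GT
  hF := K.hF.comp E.hF
  hG := E.hG.comp K.hG
  FG p := by simp [Function.comp, E.FG, K.FG]
  GF p := by simp [Function.comp, E.GF, K.GF]
  FTc := K.FTc.comp E.FTc
  GTc := E.GTc.comp K.GTc
  piF p := by simp only [Function.comp]; rw [E.piF, K.piF]
  piG p := by simp only [Function.comp]; rw [K.piG, E.piG]
  int z := by
    obtain ⟨z', hz'⟩ := K.int z
    obtain ⟨z'', hz''⟩ := E.int z'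
    exact ⟨z'', fun w => by simp only [Function.comp]; rw [hz'', hz']⟩
  mpF := K.mpF.comp E.mpF
  mpG := E.mpG.comp K.mpG

/-- a stage of the construction: current order `q` and conjugating map `K` -/
structure St where
  q : ℕ
  hq : 0 < q
  K : TD

/-- `K ∘ (translation by (a,t)) ∘ K⁻¹` on the plane -/
def Phi (K : TD) (a t : ℝ) (p : ℝ × ℝ) : ℝ × ℝ := K.F (K.G p + (a, t))

/-- the same on the torus -/
def PhiT (K : TD) (a t : ℝ) (p : UnitAddCircle × UnitAddCircle) : UnitAddCircle × UnitAddCircle :=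
  K.FT (K.GT p + pi2 (a, t))

/-- The requirements on the new factor `c` at stage `n`. -/
structure Good (S : St) (c n : ℕ) : Prop where
  two_le : 2 ≤ c
  big : (S.q : ℝ) * 2 ^ n ≤ c
  unif : ∀ z z' : UnitAddCircle × UnitAddCircle, dist z z' ≤ 1 / ((c : ℝ) * S.q) →
    dist (S.K.FT z) (S.K.FT z') ≤ (1 / 2) ^ (n + 1)
  close1 : ∀ k ≤ n, ∀ p, ‖iteratedFDeriv ℝ k (fun p =>
    (Phi S.K (1 / (S.q : ℝ)) (1 / ((c : ℝ) * S.q)) p).1 - (Phi S.K (1 / (S.q : ℝ)) 0 p).1) p‖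
      ≤ (1 / 2) ^ n
  close2 : ∀ k ≤ n, ∀ p, ‖iteratedFDeriv ℝ k (fun p =>
    (Phi S.K (1 / (S.q : ℝ)) (1 / ((c : ℝ) * S.q)) p).2 - (Phi S.K (1 / (S.q : ℝ)) 0 p).2) p‖
      ≤ (1 / 2) ^ n
  close3 : ∀ k ≤ n, ∀ p, ‖iteratedFDeriv ℝ k (fun p =>
    (Phi S.K (-(1 / (S.q : ℝ))) (-(1 / ((c : ℝ) * S.q))) p).1
      - (Phi S.K (-(1 / (S.q : ℝ))) 0 p).1) p‖ ≤ (1 / 2) ^ n
  close4 : ∀ k ≤ n, ∀ p, ‖iteratedFDeriv ℝ k (fun p =>
    (Phi S.K (-(1 / (S.q : ℝ))) (-(1 / ((c : ℝ) * S.q))) p).2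
      - (Phi S.K (-(1 / (S.q : ℝ))) 0 p).2) p‖ ≤ (1 / 2) ^ n

instance circle_prob : IsProbabilityMeasure (volume : Measure UnitAddCircle) :=
  ⟨by simp⟩

instance torus_prob : IsProbabilityMeasure (volume : Measure (UnitAddCircle × UnitAddCircle)) := by
  rw [Measure.volume_eq_prod]; infer_instance

/-- Everything needed from the inductive construction. -/
structure Tower where
  S : ℕ → St
  c : ℕ → ℕ
  good : ∀ n, Good (S n) (c n) n
  B : (n : ℕ) → SB (S n).q (c n) ((1 / 2) ^ (n + 1))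
  E : ℕ → TD
  EF : ∀ n, (E n).F = (B n).E
  EG : ∀ n, (E n).G = (B n).Ei
  q_succ : ∀ n, (S (n + 1)).q = c n * (S n).q
  K_succ : ∀ n, (S (n + 1)).K = (S n).K.comp (E n)

/-- the orders -/
def Tower.q (W : Tower) (n : ℕ) : ℕ := (W.S n).q

theorem Tower.q_dvd (W : Tower) (k : ℕ) : W.q k ∣ W.q (k + 1) := by
  rw [Tower.q, Tower.q, W.q_succ]; exact dvd_mul_left _ _

instance (W : Tower) (k : ℕ) : NeZero (W.q k) := ⟨(W.S k).hq.ne'⟩

/-- the periodic approximations on the plane -/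
def Tower.Tp (W : Tower) (n : ℕ) : ℝ × ℝ → ℝ × ℝ := Phi (W.S n).K (1 / ((W.S n).q : ℝ)) 0

/-- and their inverses -/
def Tower.Tm (W : Tower) (n : ℕ) : ℝ × ℝ → ℝ × ℝ := Phi (W.S n).K (-(1 / ((W.S n).q : ℝ))) 0

/-- on the torus -/
def Tower.TT (W : Tower) (n : ℕ) : UnitAddCircle × UnitAddCircle → UnitAddCircle × UnitAddCircle :=
  PhiT (W.S n).K (1 / ((W.S n).q : ℝ)) 0

/-- the index functions -/
def Tower.h (W : Tower) (n : ℕ) (p : UnitAddCircle × UnitAddCircle) : ZMod (W.q n) :=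
  digit (W.q n) ((W.S n).K.GT p).1

/-- representative points of the atoms of the coding -/
def Tower.rep (W : Tower) (n : ℕ) (m : ZMod (W.q (n + 1))) : UnitAddCircle × UnitAddCircle :=
  (W.S n).K.FT (pi2 ((m.val : ℝ) / (W.q n), (m.val : ℝ) / (W.q (n + 1))))

end Pool.Agent.Helper802.OD
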