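import Mathlib
import Pool.Agent.Helper802.OD.Base

set_option autoImplicit false
open MeasureTheory Set Filter Topology
open scoped ContDiff ENNReal

noncomputable section

namespace Pool.Agent.Helper802.OD

theorem fr_coe (t : ℝ) : fr (t : UnitAddCircle) = Int.fract t := by
  unfold fr
  rw [AddCircle.coe_equivIco_mk_apply]
  simp

theorem coe_fr (x : UnitAddCircle) : ((fr x : ℝ) : UnitAddCircle) = x := by
  unfold fr
  exact AddCircle.coe_equivIco

theorem measurable_fr : Measurable fr := by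
  unfold fr
  exact measurable_subtype_coe.comp (AddCircle.measurableEquivIco 1 0).measurable

theorem digit_coe (q : ℕ) (t : ℝ) :
    digit q (t : UnitAddCircle) = ((⌊(q : ℝ) * t⌋ : ℤ) : ZMod q) := by
  unfold digit
  rw [fr_coe]
  have h : (q : ℝ) * t = (q : ℝ) * Int.fract t + ((q * ⌊t⌋ : ℤ) : ℝ) := by
    push_cast
    rw [← mul_add, Int.fract_add_floor]
  rw [h, Int.floor_add_intCast]
  push_cast
  simp

theorem measurable_digit (q : ℕ) : Measurable (digit q) := by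
  unfold digit
  have h : Measurable fun x : UnitAddCircle => ⌊(q : ℝ) * fr x⌋ :=
    (measurable_fr.const_mul _).floor
  exact (measurable_from_top (f := fun n : ℤ => ((n : ℤ) : ZMod q))).comp h

theorem pi2_surj : Function.Surjective pi2 := by
  rintro ⟨x, y⟩
  exact ⟨(fr x, fr y), by simp [pi2, coe_fr]⟩

theorem pi2_add (p w : ℝ × ℝ) : pi2 (p + w) = pi2 p + pi2 w := by
  simp [pi2]

theorem pi2_zz (z : ℤ × ℤ) : pi2 (zz z) = 0 := by
  have h : ∀ n : ℤ, ((n : ℝ) : UnitAddCircle) = 0 := by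
    intro n
    rw [AddCircle.coe_eq_zero_iff]
    exact ⟨n, by simp⟩
  simp [pi2, zz, h]

theorem PhiT_pi (K : TD) (a t : ℝ) (p : ℝ × ℝ) : PhiT K a t (pi2 p) = pi2 (Phi K a t p) := by
  unfold PhiT Phi
  rw [K.piG, ← pi2_add, K.piF]

theorem Phi_inv (K : TD) (a t : ℝ) (p : ℝ × ℝ) : Phi K (-a) (-t) (Phi K a t p) = p := by
  unfold Phi
  rw [K.GF]
  have : K.G p + (a, t) + (-a, -t) = K.G p := by
    ext <;> simp
  rw [this, K.FG]

theorem Phi_smooth (K : TD) (a t : ℝ) : ContDiff ℝ ∞ (Phi K a t) := by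
  unfold Phi
  exact K.hF.comp (K.hG.add contDiff_const)

theorem Phi_int (K : TD) (a t : ℝ) (z : ℤ × ℤ) (p : ℝ × ℝ) :
    Phi K a t (p + zz z) = Phi K a t p + zz z := by
  unfold Phi
  obtain ⟨z', hz'⟩ := K.int z
  have h1 : K.G (p + zz z) = K.G p + zz z' := by
    have := hz' (K.G p)
    rw [K.FG] at this
    rw [← this, K.GF]
  rw [h1, add_right_comm, hz']

theorem SB.E_Ei {q c : ℕ} {δ : ℝ} (S : SB q c δ) (p : ℝ × ℝ) : S.E (S.Ei p) = p := by
  unfold SB.E SB.Ei
  ext <;> simp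

theorem SB.Ei_E {q c : ℕ} {δ : ℝ} (S : SB q c δ) (p : ℝ × ℝ) : S.Ei (S.E p) = p := by
  unfold SB.E SB.Ei
  ext <;> simp

theorem SB.E_step {q c : ℕ} {δ : ℝ} (S : SB q c δ) (p : ℝ × ℝ) :
    S.E (p + (1 / ((c : ℝ) * q), 0)) = S.E p + (1 / (q : ℝ), 1 / ((c : ℝ) * q)) := by
  unfold SB.E
  have h := S.s_step (p.1 + S.b p.2)
  ext
  · simp only [Prod.fst_add, Prod.snd_add, add_zero]
    rw [show p.1 + 1 / ((c : ℝ) * q) + S.b p.2 = p.1 + S.b p.2 + 1 / ((c : ℝ) * q) by ring, h]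
    ring
  · simp only [Prod.fst_add, Prod.snd_add, add_zero]
    ring

/-- Conjugation identity for one step. -/
theorem Phi_step {q c : ℕ} {δ : ℝ} (S : SB q c δ) (K E : TD) (hE : E.F = S.E) (hG : E.G = S.Ei)
    (p : ℝ × ℝ) :
    Phi (K.comp E) (1 / ((c : ℝ) * q)) 0 p = Phi K (1 / (q : ℝ)) (1 / ((c : ℝ) * q)) p := by
  unfold Phi TD.comp
  simp only [Function.comp]
  rw [hE, hG, SB.E_step, SB.E_Ei]

theorem Phi_step' {q c : ℕ} {δ : ℝ} (S : SB q c δ) (K E : TD) (hE : E.F = S.E) (hG : E.G = S.Ei)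
    (p : ℝ × ℝ) :
    Phi (K.comp E) (-(1 / ((c : ℝ) * q))) 0 p
      = Phi K (-(1 / (q : ℝ))) (-(1 / ((c : ℝ) * q))) p := by
  unfold Phi TD.comp
  simp only [Function.comp]
  rw [hE, hG]
  have h := S.E_step (S.Ei (K.G p) + (-(1 / ((c : ℝ) * q)), 0))
  have h2 : S.Ei (K.G p) + (-(1 / ((c : ℝ) * q)), 0) + (1 / ((c : ℝ) * q), 0) = S.Ei (K.G p) := by
    ext <;> simp
  rw [h2, SB.E_Ei] at h
  congr 1
  rw [add_comm] at h
  have h3 := eq_sub_of_add_eq' h.symm
  rw [h3]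
  ext <;> simp [sub_eq_add_neg]

theorem odoMeasure_prob (q : ℕ → ℕ) (hq : ∀ k, q k ∣ q (k + 1)) [∀ k, NeZero (q k)] :
    IsProbabilityMeasure (odoMeasure q hq) := by
  constructor
  unfold odoMeasure
  have := Measure.addHaarMeasure_self (K₀ := (⊤ : TopologicalSpace.PositiveCompacts (odometer q hq)))
  simpa using this

theorem odoMeasure_inv (q : ℕ → ℕ) (hq : ∀ k, q k ∣ q (k + 1)) [∀ k, NeZero (q k)] :
    MeasurePreserving (fun x => x + odoOne q hq) (odoMeasure q hq) (odoMeasure q hq) := by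
  unfold odoMeasure
  exact measurePreserving_add_right _ _

theorem Tower.q_tendsto (W : Tower) : Tendsto W.q atTop atTop := by
  have h : ∀ n, 2 ^ n ≤ W.q n := by
    intro n
    induction n with
    | zero => exact (W.S 0).hq
    | succ n ih =>
      have h1 : W.q (n + 1) = W.c n * W.q n := W.q_succ n
      rw [h1, pow_succ, mul_comm]
      exact Nat.mul_le_mul (W.good n).two_le ih
  exact tendsto_atTop_mono h (tendsto_pow_atTop_atTop_of_one_lt (by norm_num))

theorem Tower.h_meas (W : Tower) (n : ℕ) : Measurable (W.h n) := by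
  unfold Tower.h
  exact (measurable_digit _).comp (measurable_fst.comp (W.S n).K.GTc.measurable)

end Pool.Agent.Helper802.OD
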